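import Pool.Agent.H77RW.Final

/-!
# The asymptotic capacity of the range on `ℤ⁴` is not real-analytic at the simple random walk

`Delta` is the open simplex of the probability vectors on the eight steps `±e_i` of `ℤ⁴`, `walk p`
the law of the i.i.d. steps, `X n` the walk from the origin, `Cap p A` the capacity
`∑_{x ∈ A} P(x + X_m ∉ A for all m ≥ 1)` and `R n` the range `{X_0, …, X_n}`.
-/

open MeasureTheory Filter
open scoped Topology

namespace Pool.Agent.Results.MP_b733c5_pr.NotAnalytic

open Pool.Agent.H77RW

/-- The limit `𝔠(p) = asympCap p` of `E[Cap(R_n)] / n` exists for all `p`, it is the only possible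
almost sure limit of `Cap(R_n) / n`, and near the uniform vector (the simple random walk on `ℤ⁴`)
the function `𝔠` of the seven free coordinates agrees with no function that is differentiable
at the uniform vector; in particular it is not real-analytic there. -/
theorem result :
    (∀ p : Delta, Tendsto (fun n : ℕ => (∫ ω, Cap p (R n ω) ∂(walk p)) / n) atTop
      (𝓝 (asympCap p))) ∧
    (∀ (p : Delta) (L : ℝ),
      (∀ᵐ ω ∂(walk p), Tendsto (fun n : ℕ => Cap p (R n ω) / n) atTop (𝓝 L)) →
        L = asympCap p) ∧
    (∀ F : (Coord → ℝ) → ℝ, DifferentiableAt ℝ F (fun t => unif.1 t.1) →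
      ¬ ∀ᶠ x in 𝓝 (fun t : Coord => unif.1 t.1),
        ∀ h : (∀ s, 0 < full x s) ∧ ∑ s, full x s = 1, F x = asympCap ⟨full x, h⟩) ∧
    ¬ RealAnalyticAt asympCap unif :=
  ⟨tendsto_asympCap, asympCap_of_ae, not_differentiable, not_analytic⟩

end Pool.Agent.Results.MP_b733c5_pr.NotAnalytic
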